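import Pool.Agent.H17.NO.Field

/-!
# Almost nonpositive curvature operators: quantitative nonvanishing of the Euler characteristic

Let `n = 2 m`. We prove for every `m` a lower bound for `(-1)^m` times the Gauss–Bonnet–Chern
integrand by the `m`-th power of the (real) sectional curvatures: if all sectional curvatures are at
most `-κ` and the curvature operator is nonpositive, or at least bounded above by `ε_m κ` with a
universal constant `ε_m > 0`, then `(-1)^m gbc ≥ c_m κ ^ m`; no lower curvature bound is assumed. So a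
closed `2 m`-manifold with such curvature has `vol ≤ C_m |χ| κ ^ (-m)` and `χ ≠ 0`.

For nonpositive curvature operators we determine when the integrand vanishes: if and only if all
two-forms in the image of the curvature operator are degenerate. In particular the manifold has
flat planes at (almost) every point if `χ = 0`.

Notation: `Fin m × Bool` numbers an orthonormal basis; `AlgCurv R`: algebraic curvature tensor,
`R x y x y` is the sectional curvature; `gbc e R`: the Gauss–Bonnet–Chern integrand, normalised to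
have integral `χ`; `CurvField m M`: a field of algebraic curvature tensors in dimension `2 m` on
`M`, `K.gb` its integrand.

Idea of the proof: `-R = ∑ A s ⊗ A s` for two-forms `A s`, and `(-1)^m gbc` is a sum of squares of
polarised Pfaffians of the `A s`. Let `Q r` be the maximum of the Pfaffians of size `2 r` of the
forms `∑ x s A s`, `|x| ≤ 1`, on frames of unit vectors; at a maximum `(ω, u)`, two orthonormal
vectors `v, w` which are `ω`-orthogonal to `u`, and a form `η` of the family with `η(v, w)` at least
the square root of `κ`, the expansion of the mixed Pfaffian of `η, ω, …, ω` on `v, w, u` gives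
`√κ Q r ≤ e^(r+1) Q (r+1)`.
-/

set_option autoImplicit false

namespace Pool.Agent.Results.MP_394d50_gt.NonpositiveOperator

open MeasureTheory
open Pool.Agent.W666.GB Pool.Agent.H17.NO

/-- The pointwise and the integrated results. -/
theorem result :
    -- (1) the pointwise inequality
    (∀ (m : ℕ) (V : Type) [NormedAddCommGroup V] [InnerProductSpace ℝ V]
      (e : OrthonormalBasis (Fin m × Bool) ℝ V) (R : V → V → V → V → ℝ) (κ : ℝ), 1 ≤ m →
      AlgCurv R → 0 ≤ κ → SecLe R (-κ) →
        (OpNonpos R → κ ^ m ≤ bnd m * ((-1) ^ m * gbc e R)) ∧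
        (OpLe R (epsm m * κ) → κ ^ m ≤ 2 * bnd m * ((-1) ^ m * gbc e R))) ∧
    -- (2) nonpositive curvature operator: the zeros of the integrand
    (∀ (m : ℕ) (V : Type) [NormedAddCommGroup V] [InnerProductSpace ℝ V]
      (e : OrthonormalBasis (Fin m × Bool) ℝ V) (R : V → V → V → V → ℝ), AlgCurv R →
      OpNonpos R →
        (gbc e R = 0 ↔ ∀ (k : ℕ) (x y : Fin k → V), ¬ Nondeg (curvForm R x y)) ∧
        (gbc e R = 0 → HasFlatPlane R) ∧
        ∀ (k : ℕ) (x y : Fin k → V), pfaff e (curvForm R x y) ^ 2 ≤
          (2 * Real.pi) ^ m / m.factorial * (-∑ s, ∑ t, R (x s) (y s) (x t) (y t)) ^ m *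
            ((-1) ^ m * gbc e R)) ∧
    -- (3) the integrated inequality
    (∀ (m : ℕ) (M : Type) [MeasurableSpace M] (μ : Measure M) (K : CurvField m M) (κ : M → ℝ),
      1 ≤ m → (∀ p, 0 ≤ κ p ∧ SecLe (K.R p) (-κ p) ∧ OpLe (K.R p) (epsm m * κ p)) →
        0 ≤ (-1) ^ m * ∫ p, K.gb p ∂μ ∧
        (Integrable K.gb μ → ∫ p, κ p ^ m ∂μ ≤ 2 * bnd m * ((-1) ^ m * ∫ p, K.gb p ∂μ)) ∧
        (Integrable K.gb μ → μ {p | 0 < κ p} ≠ 0 → 0 < (-1) ^ m * ∫ p, K.gb p ∂μ)) ∧
    -- (4) nonpositive curvature operator: the vanishing of the integral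
    (∀ (m : ℕ) (M : Type) [MeasurableSpace M] (μ : Measure M) (K : CurvField m M),
      (∀ p, OpNonpos (K.R p)) → Integrable K.gb μ →
        (∫ p, K.gb p ∂μ = 0 ↔
          ∀ᵐ p ∂μ, ∀ (k : ℕ) (x y : Fin k → K.V p), ¬ Nondeg (curvForm (K.R p) x y)) ∧
        (∫ p, K.gb p ∂μ = 0 → ∀ᵐ p ∂μ, HasFlatPlane (K.R p))) := by
  refine ⟨?_, ?_, ?_, ?_⟩
  · intro m V _ _ e R κ hm hR hκ hs
    refine ⟨fun hO => ?_, fun hO => ?_⟩
    · rw [← bnd_eq]
      exact point_quant e hR hO hκ hs
    · have h := point_eps hm e hR hκ hO hs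
      rw [bnd_eq] at h
      rw [mul_assoc]
      exact h
  · intro m V _ _ e R hR hO
    exact ⟨crit e hR hO, flat_of_zero e hR hO, fun k x y => pfaff_bound e hR hO x y⟩
  · intro m M _ μ K κ hm h
    exact field_eps hm μ K κ h
  · intro m M _ μ K h hi
    exact field_crit μ K h hi

end Pool.Agent.Results.MP_394d50_gt.NonpositiveOperator
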