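import Pool.Agent.Helper57.RH.Field
import Pool.Agent.Helper57.RH.Beta2
import Pool.Agent.Helper57.RH.Fric

/-!
# The Euler characteristic of negatively curved manifolds with pinched Ricci curvatures, in all
even dimensions

Let `n = 2 m ≥ 6`. `IRicGe R k ρ`: the `k`-th intermediate Ricci curvature is at least `ρ`, that
is, the sum of the sectional curvatures of the planes `x ∧ y 0, …, x ∧ y (k - 1)` is at least `ρ`
for all orthonormal `x, y 0, …, y (k - 1)`; for `k = n - 1` this is the Ricci curvature.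
`Pinched m c R`: all sectional curvatures are at most `-c ≤ 0`, and the intermediate Ricci
curvatures of the orders `5, 7, …, n - 1` are at least `-ρ 3, …, -ρ m` with
`ρ 3 + … + ρ m ≤ (m - 1) (m + 4) c` (for constant curvature `-c` the sum is `(m ^ 2 - 4) c`, so the
room is `3 m c`). `PinchedSq m c R`: `R` is such a tensor minus a sum of squares of decomposable
two-forms, so that the curvature is not bounded below.

(1) For `Pinched` tensors `(-1)^m` times the Gauss-Bonnet-Chern integrand is at least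
`roundGB m 1 * c ^ (m - 1) * (- scal / (2 (n - 1)) - (m - 1) c)`, which is at least the value
`roundGB m c` for constant curvature `-c`; equality with `roundGB m c` holds only for constant
curvature. (2) For `PinchedSq` tensors it is at least `roundGB m c`.
(3) `K ≤ -c` and `Ric ≥ - (n ^ 2 - 2 n + 4) / (n - 4) * c` imply `Pinched m c`.
(4) `-b ≤ K ≤ -a` and `(n ^ 2 - 16) b ≤ (n - 2) (n + 8) a` imply `Pinched m a`.
(5), (6) The integrated forms, with `c` a function on the manifold.

For a closed Riemannian manifold the integral is the Euler characteristic. So a closed manifold `M`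
with `c ≥ 0` which is `Pinched` at each point is aspherical, and `χ(M) = 0` only if `M` is flat, in
which case all `L²`-Betti numbers vanish.

Proof. `-R = P + c R₀`, where `P` has nonnegative sectional curvature. The mixed Gauss-Bonnet
forms of `P, P` and factors `P + r R₀` are nonnegative, by induction on the number of factors: the
contraction of all but one factor is a form `D` with nonnegative sectional values, and averaging
the product of the Jacobi operators of `P` and `D` over the sphere bounds `⟨P, D⟩` from below by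
the Ricci forms. Finally `(1 + x)^m` has nonnegative coefficients in the Newton basis with nodes
`0, 0, -r 3, …, -r m`, if `r` is nondecreasing with sum at most `m`.
-/

set_option autoImplicit false

namespace Pool.Agent.Results.MP_394d50_gt.RicciPinchedAllDimensions

open Pool.Agent.W666.GB Pool.Agent.W669.HD Pool.Agent.Helper57.RH MeasureTheory

/-- **The Hopf sign for negative curvature with pinched intermediate Ricci curvatures.** -/
theorem result :
    -- (1) the pointwise bounds and the case of equality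
    (∀ (m : ℕ) (V : Type) [NormedAddCommGroup V] [InnerProductSpace ℝ V]
      (e : OrthonormalBasis (Fin m × Bool) ℝ V) (R : V → V → V → V → ℝ) (c : ℝ), 3 ≤ m →
      AlgCurv R → Pinched m c R →
        roundGB m 1 * (c ^ (m - 1) * (-(scal e R) / (2 * (2 * m - 1)) - (m - 1) * c)) ≤
          (-1) ^ m * gbc e R ∧
        roundGB m c ≤
          roundGB m 1 * (c ^ (m - 1) * (-(scal e R) / (2 * (2 * m - 1)) - (m - 1) * c)) ∧
        ((-1) ^ m * gbc e R = roundGB m c ↔ ∀ x y z w, R x y z w = -(c * unitT x y z w))) ∧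
    -- (2) minus squares of decomposable two-forms
    (∀ (m : ℕ) (V : Type) [NormedAddCommGroup V] [InnerProductSpace ℝ V]
      (e : OrthonormalBasis (Fin m × Bool) ℝ V) (R : V → V → V → V → ℝ) (c : ℝ), 3 ≤ m →
      PinchedSq m c R → roundGB m c ≤ (-1) ^ m * gbc e R) ∧
    -- (3) Ricci pinching
    (∀ (m : ℕ) (V : Type) [NormedAddCommGroup V] [InnerProductSpace ℝ V]
      (_ : OrthonormalBasis (Fin m × Bool) ℝ V) (R : V → V → V → V → ℝ) (c : ℝ), 3 ≤ m → 0 ≤ c →
      (∀ x y : V, ‖x‖ = 1 → ‖y‖ = 1 → inner ℝ x y = (0 : ℝ) → R x y x y ≤ -c) →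
      IRicGe R (2 * m - 1) (-(((2 * m : ℝ) ^ 2 - 2 * (2 * m) + 4) / (2 * m - 4) * c)) →
        Pinched m c R) ∧
    -- (4) sectional pinching
    (∀ (m : ℕ) (V : Type) [NormedAddCommGroup V] [InnerProductSpace ℝ V]
      (R : V → V → V → V → ℝ) (a b : ℝ), 3 ≤ m → 0 ≤ a → SecIn R (-b) (-a) →
      ((2 * m : ℝ) ^ 2 - 16) * b ≤ (2 * m - 2) * (2 * m + 8) * a → Pinched m a R) ∧
    -- (5) fields of pinched tensors: zero integral only for flat, minimal only for constant
    (∀ (m : ℕ) (M : Type) [MeasurableSpace M] (μ : Measure M) (K : CurvField m M) (c : M → ℝ),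
      3 ≤ m → (∀ p, Pinched m (c p) (K.R p)) → Integrable K.gb μ →
        (∫ p, K.gb p ∂μ = 0 ↔ ∀ᵐ p ∂μ, ∀ x y z w : K.V p, K.R p x y z w = 0) ∧
        (IsFiniteMeasure μ → ∀ c₀ : ℝ, 0 ≤ c₀ → (∀ p, c₀ ≤ c p) →
          ((-1) ^ m * ∫ p, K.gb p ∂μ = roundGB m c₀ * μ.real Set.univ ↔
            ∀ᵐ p ∂μ, ∀ x y z w : K.V p, K.R p x y z w = -(c₀ * unitT x y z w)))) ∧
    -- (6) fields of pinched tensors minus squares (`Pinched` implies `PinchedSq`)
    (∀ (m : ℕ) (M : Type) [MeasurableSpace M] (μ : Measure M) (K : CurvField m M) (c : M → ℝ),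
      3 ≤ m → (∀ p, Pinched m (c p) (K.R p) ∨ PinchedSq m (c p) (K.R p)) →
        0 ≤ (-1) ^ m * ∫ p, K.gb p ∂μ ∧
        (Integrable K.gb μ → μ {p | 0 < c p} ≠ 0 → 0 < (-1) ^ m * ∫ p, K.gb p ∂μ) ∧
        (IsFiniteMeasure μ → Integrable K.gb μ → ∀ c₀ : ℝ, 0 ≤ c₀ → (∀ p, c₀ ≤ c p) →
          roundGB m c₀ * μ.real Set.univ ≤ (-1) ^ m * ∫ p, K.gb p ∂μ)) := by
  refine ⟨?_, ?_, ?_, ?_, ?_, ?_⟩
  · intro m V _ _ e R c hm hR h
    exact ⟨pointwise2 e Beta2.beta2 fric hm hR h, second e hm hR h.1 h.2.1,
      fun heq x y z w => rigid e Beta2.beta2 fric hm hR h heq x y z w, fun h => gbc_const e h⟩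
  · intro m V _ _ e R c hm h
    exact point_sq e Beta2.beta2 fric hm h
  · intro m V _ _ e R c hm hc hs hr
    refine pinched_of_ric e hm hc hs ?_
    have hmR : (3 : ℝ) ≤ m := by exact_mod_cast hm
    have h1 : (m : ℝ) - 2 ≠ 0 := by linarith
    have h2 : (2 : ℝ) * m - 4 ≠ 0 := by linarith
    have h3 : ((2 * m : ℝ) ^ 2 - 2 * (2 * m) + 4) / (2 * m - 4) =
        2 * ((m : ℝ) ^ 2 - m + 1) / (m - 2) := by
      rw [div_eq_div_iff h2 h1]
      ring
    rw [h3] at hr
    exact hr
  · intro m V _ _ R a b hm ha hs hab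
    exact pinched_of_sec hm ha hs hab
  · intro m M _ μ K c hm h hint
    exact ⟨field_zero μ K c Beta2.beta2 fric hm h hint, fun _ c₀ h₀ hc =>
      field_rigid μ K c Beta2.beta2 fric hm h hint h₀ hc⟩
  · intro m M _ μ K c hm h
    have h' : ∀ p, PinchedSq m (c p) (K.R p) := fun p =>
      (h p).elim (pinched_sq (K.curv p)) id
    exact ⟨field_nonneg μ K c Beta2.beta2 fric hm h', fun hint hμ =>
      field_pos μ K c Beta2.beta2 fric hm h' hint hμ, fun _ hint c₀ h₀ hc =>
      field_vol μ K c Beta2.beta2 fric hm h' hint h₀ hc⟩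

end Pool.Agent.Results.MP_394d50_gt.RicciPinchedAllDimensions
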